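import Pool.Agent.H33.EXC.Yre
import Pool.Agent.H40.ISO.Exk
import Pool.Agent.H39.GEN.Psg

/-!
# The exactness at the windows of the grid of a box

`exw_chi`: exactness at a good window of an order, with the diagonals of the order, from `ChI`.
`exw_box`: the field `exw` of `BoxZ`, in all subclasses, when the good windows of the order meet
all intervals of the length `ε₀ r` beyond the window of the box.
-/

set_option autoImplicit false

namespace Pool.EXC6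

open MeasureTheory Set Filter Topology
open Finset (range)
open Pool.Agent.H49.Ent Pool.Agent.H32.Dense Pool.STK Pool.KS3 Pool.STAT Pool.STAT.CLO Pool.MIC6
open Pool.KA Pool.KSAT Pool.PB Pool.GEN Pool.K2S Pool.S6C
open Pool.CHT Pool.STA Pool.PKG Pool.GRW
open Pool.TOP (TopS)
open Pool.STR (NumI Rle)
open Pool.ISO (ChI)
open Pool.EXC33 (dnN ExwB)

section chi

variable {n : ℕ} {hn : 2 ≤ n} {S : PCl n} {P : ℝ → ℝ → ℝ} {r : ℝ → ℝ}
  {P' : ℕ → List (Fin n) × Fin n → ℝ → ℝ → ℝ} {Λ : Finset (Fin n) → Fin n → ℝ → ℝ → ℝ}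

/-- **The exactness of the list** at a good window, from the bounds of a row. -/
theorem exw_chi (H : Pk hn S P r P' Λ) (hF : FZX (n - 1)) {o : Od n} {w sg c g ρ' : ℝ}
    (hw : w ∈ Gs P r P' Λ o)
    (hch : ChI S (P' o.2) (tht o.2) (cc hn o.1.1) (n - 1) P (Wgc P' o.2) sg c g ρ')
    (hwg : w ≤ g + 8 * ρ') {ρ : ℝ} (hρ : 0 < ρ) :
    Bas S (fun J F A => ExW F A (fun j : Fin (n - 1) => cc hn o.1.1 j) ⌊w * J⌋₊
      (((∑ j : Fin (n - 1), (1 - bet (P' o.2) (cc hn o.1.1) j w w)) - ρ) *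
        Real.log 2 * J)) := by
  classical
  obtain ⟨al, g₀, s, d, e₀, K₀, N, hal, hg₀, hC⟩ := H.cl
  have hW := hw.1
  have hw0 := hW.1.1
  have hw1 := hW.1.2.1
  have hth := tht_pos o.2
  have hcε : ∀ i : Fin (n - 1), cc hn o.1.1 i = bse (o.1.1 i) := fun i => cc_lt hn _ i.2
  have hinj : Function.Injective (fun i => bse (o.1.1 i) : Fin (n - 1) → Fin n) :=
    bse_inj.comp o.1.1.injective
  have hex : VExa S Λ (fun i => bse (o.1.1 i)) w := by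
    intro ρ hρ
    refine vst_exa hF hC.ne (C₀ := 6) (by norm_num) H.tmc H.lam hal hg₀ hC.actm H.pos
      hinj (fun k hk => hC.actb _ ?_) hw0 hw1 hW.1.2.2.1 hW.1.2.2.2 hρ
    exact o.1.2 k hk
  have hbet : ∀ j < n - 1, bet (P' o.2) (cc hn o.1.1) j w w < 1 - tht o.2 * w := by
    intro j hj
    have h1 := hch.bd j hj w hw0 hwg
    have h2 : tht o.2 * w ≤ tht o.2 := mul_le_of_le_one_right hth.le hw1.le
    have h3 := hch.sgθ
    linarith
  have hvs : ∀ j, (hj : j < n - 1) → vs Λ (fun i => bse (o.1.1 i)) w (j + 1) =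
      bet (P' o.2) (cc hn o.1.1) j w w := by
    intro j hj
    have h1 := (bet_lt_iff hth hC.ne (C₀ := 6) (by norm_num) H.tmc H.lam (H.cht o.2) hinj hcε hW
      hex hj).1 (hbet j hj)
    exact (bet_eq_vst hth hC.ne (C₀ := 6) (by norm_num) H.tmc H.lam (H.cht o.2) hinj hcε hW hex
      hj h1).symm
  have hsum : ∑ j : Fin (n - 1), (1 - vs Λ (fun i => bse (o.1.1 i)) w (j + 1)) =
      ∑ j : Fin (n - 1), (1 - bet (P' o.2) (cc hn o.1.1) j w w) := by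
    refine Finset.sum_congr rfl fun j _ => ?_
    rw [hvs j j.2]
  refine (hex ρ hρ).mono 0 fun J _ F A h V z z' hz => ?_
  have h1 := h V z z' hz
  rw [hsum] at h1
  have e1 : (fun ω (j : Fin (n - 1)) => F.X J ω (cc hn o.1.1 j)) =
      fun ω (j : Fin (n - 1)) => F.X J ω (bse (o.1.1 j)) := by
    funext ω j
    rw [hcε]
  rw [e1]
  exact h1

end chi

section cls

variable {n : ℕ} {hn : 2 ≤ n} {S : PCl n} {P : ℝ → ℝ → ℝ} {rr : ℝ → ℝ}
  {P' : ℕ → List (Fin n) × Fin n → ℝ → ℝ → ℝ} {Λ : Finset (Fin n) → Fin n → ℝ → ℝ → ℝ}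
  {PB : ℕ → List (Fin n) × Fin n → ℝ → ℝ → ℝ}

/-- **The field `exw` of the boxes**, in all subclasses. -/
theorem exw_box (n : ℕ) {c : ℝ} (hc : 0 < c) {N : ℕ} (hN : 1 ≤ N) (M : ℕ) {δ : ℝ} (hδ : 0 < δ) :
    ∃ ε₀ : ℝ, 0 < ε₀ ∧ ε₀ ≤ 1 ∧ ∀ {hn : 2 ≤ n} {S : PCl n} {P : ℝ → ℝ → ℝ} {rr : ℝ → ℝ}
      {P' : ℕ → List (Fin n) × Fin n → ℝ → ℝ → ℝ} {Λ : Finset (Fin n) → Fin n → ℝ → ℝ → ℝ}
      {PB : ℕ → List (Fin n) × Fin n → ℝ → ℝ → ℝ} (H : PkT hn S P rr P' Λ PB) {hTop : TopS n}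
      {hF : FZX (n - 1)} {ρ' : ℝ → ℝ} {hρ : Rle rr ρ'} {p : ((H.nk hTop hF).chg hρ H.up).Par}
      (_ : ∀ c (k : p.α × Od n) Q g ρ, p.Ad' c k Q g ρ → AdI hn S P P' c k.2 g ρ)
      {β h' Mr ε : ℝ} {q : BS p.cell}, IsBS p.cell c β h' Mr ε q → ε ≤ ε₀ →
      (∀ x y : ℝ, q.g ≤ x → x + ε₀ * q.r ≤ y → y ≤ q.g + q.r →
        ∃ a ∈ Gs P rr P' Λ (show Od n from q.k.2), x < a ∧ a < y) →
      ∀ (K : ℕ) (S₁ : PCl n),
      (∀ (τ : ℝ) (J : ℕ) (F : Fam n J) (A : F.Ω → Prop), S₁.St τ J F A → S.St τ J F A) →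
      ∀ j ≤ M, Bas S₁ fun J F A => ExW F A (fun l : Fin (n - 1) => (kitN H p K).kit.cs q l)
        (up ((kitN H p K).kit.y q).1 J + j * up (msh ((kitN H p K).kit.X q) N M) J)
        ((∑ l ∈ range (n - 1), ((J : ℝ) - (⌊dnN H p N M q j l * J⌋₊ : ℕ))) * Real.log 2 -
          δ * up (msh ((kitN H p K).kit.X q) N M) J) := by
  have hNr : (1 : ℝ) ≤ N := by exact_mod_cast hN
  have hM0 : (0 : ℝ) ≤ M := Nat.cast_nonneg M
  obtain ⟨A, hA⟩ : ∃ A : ℝ, A = N * (M + 4) * ((n : ℝ) * (1 / c + 2) + 1) := ⟨_, rfl⟩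
  have hn0 : (0 : ℝ) ≤ n := Nat.cast_nonneg n
  have hc1 : 0 < 1 / c := by positivity
  have hA0 : 0 < A := by rw [hA]; positivity
  obtain ⟨ε₀, hε₀⟩ : ∃ ε₀ : ℝ, ε₀ = min (1 / ((M : ℝ) + 4)) (δ / (2 * A)) := ⟨_, rfl⟩
  have hε₀0 : 0 < ε₀ := by rw [hε₀]; exact lt_min (by positivity) (by positivity)
  have hε1 : (M + 4) * ε₀ ≤ 1 := by
    have h1 : ε₀ ≤ 1 / ((M : ℝ) + 4) := by rw [hε₀]; exact min_le_left _ _
    rw [le_div_iff₀ (by positivity)] at h1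
    linarith
  have hε2 : 2 * A * ε₀ ≤ δ := by
    have h1 : ε₀ ≤ δ / (2 * A) := by rw [hε₀]; exact min_le_right _ _
    rw [le_div_iff₀ (by positivity)] at h1
    linarith
  have hε3 : ε₀ ≤ 1 := by
    have : 0 ≤ (M + 3) * ε₀ := by positivity
    linarith
  refine ⟨ε₀, hε₀0, hε3, ?_⟩
  intro hn S P rr P' Λ PB H hTop hF ρ' hρ p hp β h' Mr ε q hq hεε hden K S₁ hsub j hj
  obtain ⟨sg, hch⟩ := hp c q.k q.Q q.g q.r hq.ad.2.2.2.2
  have hr := hq.r0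
  have hg0 := hq.g0
  have hg1 := hq.g1
  obtain ⟨ζ, hζ⟩ : ∃ ζ, ζ = msh q.r N M := ⟨_, rfl⟩
  have hXζ : (N : ℝ) * ((M + 4) * ζ) = q.r := by rw [hζ]; exact msh_mul hN
  have hζ0 : 0 < ζ := by
    by_contra hcon
    push Not at hcon
    have h3 : (N : ℝ) * ((M + 4) * ζ) ≤ 0 :=
      mul_nonpos_of_nonneg_of_nonpos (Nat.cast_nonneg N)
        (mul_nonpos_of_nonneg_of_nonpos (by positivity) hcon)
    linarith
  have hX4 : (M + 4) * ζ ≤ q.r := by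
    have : 1 * ((M + 4) * ζ) ≤ N * ((M + 4) * ζ) :=
      mul_le_mul_of_nonneg_right hNr (by positivity)
    linarith
  have hjr : (j : ℝ) ≤ M := by exact_mod_cast hj
  have hjζ : (j : ℝ) * ζ ≤ M * ζ := mul_le_mul_of_nonneg_right hjr hζ0.le
  have hjζ0 : (0 : ℝ) ≤ j * ζ := by positivity
  have hMr : (M : ℝ) * ζ + ε₀ * q.r ≤ q.r := by
    have h1 : (M + 4) * ((M : ℝ) * ζ + ε₀ * q.r) = M * ((M + 4) * ζ) + (M + 4) * ε₀ * q.r := by
      ring
    have h2 : (M : ℝ) * ((M + 4) * ζ) ≤ M * q.r := mul_le_mul_of_nonneg_left hX4 hM0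
    have h3 : (M + 4) * ε₀ * q.r ≤ 1 * q.r := mul_le_mul_of_nonneg_right hε1 hr.le
    have h4 : (M + 4) * ((M : ℝ) * ζ + ε₀ * q.r) ≤ (M + 4) * q.r := by linarith
    exact le_of_mul_le_mul_left h4 (by positivity)
  -- the good window
  obtain ⟨a, ha, ha1, ha2⟩ := hden (q.g + j * ζ) (q.g + j * ζ + ε₀ * q.r) (by linarith) le_rfl
    (by linarith)
  have ha3 : a ≤ q.g + q.r := by linarith
  have hex := exw_chi H.toPk hF (hw := ha) (hch := hch) (by linarith)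
    (show 0 < ε₀ * q.r by positivity)
  refine Bas.sub hsub ?_
  show Bas S fun J F A => ExW F A (fun l : Fin (n - 1) => cc hn (show Od n from q.k.2).1.1 l)
    (up q.g J + j * up (msh q.r N M) J)
    ((∑ l ∈ range (n - 1), ((J : ℝ) - (⌊dnN H p N M q j l * J⌋₊ : ℕ))) * Real.log 2 -
      δ * up (msh q.r N M) J)
  rw [← hζ]
  have hdn : ∀ l < n - 1, dnN H p N M q j l = p.cell.D q.k.2 (jxI n l) (q.g + j * ζ) := by
    intro l hl
    unfold dnN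
    rw [← hζ, KitS.dg_base q hl]
    rfl
  have hdb : ∀ l < n - 1, ∀ a : ℝ, p.cell.D q.k.2 (jxI n l) a =
      bet (P' (show Od n from q.k.2).2) (cc hn (show Od n from q.k.2).1.1) l a a := by
    intro l hl a
    have h2 : jxI n l = some ⟨l, hl⟩ := dif_pos hl
    rw [h2]
    rfl
  refine exw_win (eps := fun l : Fin (n - 1) => cc hn (show Od n from q.k.2).1.1 l)
    (L := fun l => bet (P' (show Od n from q.k.2).2) (cc hn (show Od n from q.k.2).1.1) l a a)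
    (b := fun l => dnN H p N M q j l) (θ := (1 / c + 2) * ε₀ * q.r) (ρ := ε₀ * q.r)
    (by linarith) hζ0 ha1 (by linarith) (by positivity) (fun l hl => ?_) ?_ (fun l hl => ?_) hex
  · -- the numbers
    show bet (P' (show Od n from q.k.2).2) (cc hn (show Od n from q.k.2).1.1) l a a ≤
      dnN H p N M q j l + (1 / c + 2) * ε₀ * q.r
    rw [hdn l hl, ← hdb l hl a]
    have h1 := hq.dj (jxI n l) a (by rw [abs_le]; constructor <;> linarith)
    have h2 := hq.dj (jxI n l) (q.g + j * ζ) (by rw [abs_le]; constructor <;> linarith)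
    have h3 := (abs_le.1 h1).2
    have h4 := (abs_le.1 h2).1
    have h5 := hq.cSj (jxI n l)
    have h6 := hq.S0 (jxI n l)
    have h7 : q.Sj (jxI n l) ≤ 1 / c := by
      rw [le_div_iff₀ hc]
      linarith
    have h8 : q.Sj (jxI n l) * (a - (q.g + j * ζ)) ≤ 1 / c * (ε₀ * q.r) :=
      mul_le_mul h7 (by linarith) (by linarith) hc1.le
    have h9 : ε * q.r ≤ ε₀ * q.r := mul_le_mul_of_nonneg_right hεε hr.le
    have h10 : q.Sj (jxI n l) * (a - q.g) - q.Sj (jxI n l) * (q.g + j * ζ - q.g) =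
        q.Sj (jxI n l) * (a - (q.g + j * ζ)) := by ring
    have h11 : (1 / c + 2) * ε₀ * q.r = 1 / c * (ε₀ * q.r) + 2 * (ε₀ * q.r) := by ring
    rw [h11]
    linarith
  · have h1 : Real.log 2 ≤ 1 := by
      have := Real.log_two_lt_d9
      linarith
    have h2 : (((n - 1 : ℕ) : ℝ) * ((1 / c + 2) * ε₀ * q.r) + ε₀ * q.r) * Real.log 2 ≤
        (((n - 1 : ℕ) : ℝ) * ((1 / c + 2) * ε₀ * q.r) + ε₀ * q.r) * 1 :=
      mul_le_mul_of_nonneg_left h1 (by positivity)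
    have h3 : ((n - 1 : ℕ) : ℝ) ≤ n := by exact_mod_cast Nat.sub_le n 1
    have h4 : ((n - 1 : ℕ) : ℝ) * ((1 / c + 2) * ε₀ * q.r) ≤ n * ((1 / c + 2) * ε₀ * q.r) :=
      mul_le_mul_of_nonneg_right h3 (by positivity)
    have h5 : (n : ℝ) * ((1 / c + 2) * ε₀ * q.r) + ε₀ * q.r = A * ε₀ * ζ := by
      rw [hA, ← hXζ]
      ring
    have h6 : 2 * (A * ε₀ * ζ) ≤ δ * ζ := by
      have := mul_le_mul_of_nonneg_right hε2 hζ0.le
      linarith
    have h7 : 0 < A * ε₀ * ζ := by positivity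
    linarith
  · show 0 ≤ dnN H p N M q j l
    rw [hdn l hl]
    exact p.cell.hD0 _ _ _ (by linarith) (by linarith)

/-- **Exactness on the own windows** of the small boxes of a family. -/
theorem exwB_of (H : PkT hn S P rr P' Λ PB) {hTop : TopS n} {hF : FZX (n - 1)} {ρ' : ℝ → ℝ}
    {hρ : Rle rr ρ'} {p : ((H.nk hTop hF).chg hρ H.up).Par}
    (hp : ∀ c (k : p.α × Od n) Q g ρ, p.Ad' c k Q g ρ → AdI hn S P P' c k.2 g ρ)
    {I : ℝ → BS p.cell → Prop} (hI : MonoI I) {c β h' Mr : ℝ} (hc : 0 < c)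
    (hbs : ∀ ε q, I ε q → IsBS p.cell c β h' Mr ε q)
    (hden : ∀ e : ℝ, 0 < e → EvP I fun q => ∀ x y : ℝ, q.g ≤ x → x + e * q.r ≤ y →
      y ≤ q.g + q.r → ∃ a ∈ Gs P rr P' Λ (show Od n from q.k.2), x < a ∧ a < y) :
    ExwB H p I := by
  intro δ hδ N M hN
  obtain ⟨ε₀, hε₀, -, hbox⟩ := exw_box n hc hN M hδ
  refine ((hden ε₀ hε₀).and hI (EvP.self I hε₀)).mono ?_
  rintro q ⟨h1, h2⟩ j hj
  exact hbox H hp (hbs _ _ h2) le_rfl h1 1 S (fun _ _ _ _ h => h) j hj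

end cls

end Pool.EXC6
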